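import Pool.Agent.K1H30.ES.Stm

/-! The functionals of order less than `k`: Leibniz rule, and vanishing on functions of
multiplicity `k`. -/

set_option autoImplicit false

namespace Pool.Agent.K1H38.ES

open MvPolynomial Pool.Agent.K1H30.ES

section

variable {R : Type} [CommRing R]

/-- the functional as a linear map -/
noncomputable def fnL (t : R) (P : Fin 3 → R) (a b : ℕ) : P3 R →ₗ[R] R :=
  (aeval P : P3 R →ₐ[R] R).toLinearMap ∘ₗ
    (((Dv t : Derivation R (P3 R) (P3 R)) : P3 R →ₗ[R] P3 R) ^ a) ∘ₗ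
    (((Dz : Derivation R (P3 R) (P3 R)) : P3 R →ₗ[R] P3 R) ^ b)

theorem fnL_apply (t : R) (P : Fin 3 → R) (a b : ℕ) (G : P3 R) :
    fnL t P a b G = fn t P a b G := by
  unfold fnL fn
  rw [LinearMap.comp_apply, LinearMap.comp_apply, Module.End.pow_apply, Module.End.pow_apply,
    AlgHom.toLinearMap_apply, MvPolynomial.aeval_eq_eval]
  rfl

theorem fn_add (t : R) (P : Fin 3 → R) (a b : ℕ) (F G : P3 R) :
    fn t P a b (F + G) = fn t P a b F + fn t P a b G := by
  rw [← fnL_apply, ← fnL_apply, ← fnL_apply, map_add]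

theorem fn_smul (t : R) (P : Fin 3 → R) (a b : ℕ) (c : R) (G : P3 R) :
    fn t P a b (c • G) = c * fn t P a b G := by
  rw [← fnL_apply, ← fnL_apply, map_smul, smul_eq_mul]

theorem fn_sum (t : R) (P : Fin 3 → R) (a b : ℕ) {ι : Type*} (s : Finset ι) (G : ι → P3 R) :
    fn t P a b (∑ i ∈ s, G i) = ∑ i ∈ s, fn t P a b (G i) := by
  rw [← fnL_apply, map_sum]
  exact Finset.sum_congr rfl fun i _ => fnL_apply t P a b (G i)

theorem fn_zero (t : R) (P : Fin 3 → R) (a b : ℕ) : fn t P a b 0 = 0 := by
  rw [← fnL_apply, map_zero]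

theorem Van.add {t : R} {P : Fin 3 → R} {k : ℕ} {F G : P3 R} (hF : Van t P k F)
    (hG : Van t P k G) : Van t P k (F + G) := fun a b h => by
  rw [fn_add, hF a b h, hG a b h, add_zero]

theorem Van.smul {t : R} {P : Fin 3 → R} {k : ℕ} {G : P3 R} (c : R) (hG : Van t P k G) :
    Van t P k (c • G) := fun a b h => by
  rw [fn_smul, hG a b h, mul_zero]

theorem Van.zero {t : R} {P : Fin 3 → R} {k : ℕ} : Van t P k 0 := fun a b _ => fn_zero t P a b

theorem Van.sum {t : R} {P : Fin 3 → R} {k : ℕ} {ι : Type*} (s : Finset ι) (G : ι → P3 R)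
    (hG : ∀ i ∈ s, Van t P k (G i)) : Van t P k (∑ i ∈ s, G i) := fun a b h => by
  rw [fn_sum]
  exact Finset.sum_eq_zero fun i hi => hG i hi a b h

theorem Van.mono {t : R} {P : Fin 3 → R} {k l : ℕ} {G : P3 R} (hG : Van t P k G) (h : l ≤ k) :
    Van t P l G := fun a b hab => hG a b (by omega)

/-- the two derivations commute -/
theorem dv_dz (t : R) (G : P3 R) : Dv t (Dz G) = Dz (Dv t G) := by
  have h : ⁅(Dv t : Derivation R (P3 R) (P3 R)), (Dz : Derivation R (P3 R) (P3 R))⁆ = 0 := by
    apply MvPolynomial.derivation_ext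
    intro i
    rw [Derivation.commutator_apply]
    fin_cases i
    · have h2 := (mkDerivation R ![(0 : P3 R), 0, 1]).map_natCast 2
      push_cast at h2
      simp [Dv, Dz, mkDerivation_X, Derivation.leibniz, h2]
    · have h2 := (mkDerivation R ![(0 : P3 R), 0, 1]).map_natCast 2
      push_cast at h2
      simp [Dv, Dz, mkDerivation_X, Derivation.leibniz, h2]
    · simp [Dv, Dz, mkDerivation_X]
  have h1 := congrArg (fun D : Derivation R (P3 R) (P3 R) => D G) h
  simp only [Derivation.commutator_apply, Derivation.coe_zero, Pi.zero_apply] at h1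
  exact sub_eq_zero.1 h1

theorem dz_iter_dv (t : R) (b : ℕ) (G : P3 R) :
    (⇑(Dz : Derivation R (P3 R) (P3 R)))^[b] (Dv t G) =
      Dv t ((⇑(Dz : Derivation R (P3 R) (P3 R)))^[b] G) := by
  induction b with
  | zero => rfl
  | succ b ih => rw [Function.iterate_succ_apply', Function.iterate_succ_apply', ih, dv_dz]

theorem fn_dv (t : R) (P : Fin 3 → R) (a b : ℕ) (G : P3 R) :
    fn t P a b (Dv t G) = fn t P (a + 1) b G := by
  unfold fn
  rw [dz_iter_dv, Function.iterate_succ_apply]

theorem fn_dz (t : R) (P : Fin 3 → R) (a b : ℕ) (G : P3 R) :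
    fn t P a b (Dz G) = fn t P a (b + 1) G := by
  unfold fn
  rw [Function.iterate_succ_apply]

/-- the recursive description -/
theorem van_succ (t : R) (P : Fin 3 → R) (k : ℕ) (G : P3 R) :
    Van t P (k + 1) G ↔ eval P G = 0 ∧ Van t P k (Dv t G) ∧ Van t P k (Dz G) := by
  constructor
  · intro h
    refine ⟨h 0 0 (by omega), fun a b hab => ?_, fun a b hab => ?_⟩
    · rw [fn_dv]; exact h _ _ (by omega)
    · rw [fn_dz]; exact h _ _ (by omega)
  · rintro ⟨h0, h1, h2⟩ a b hab
    rcases a with _ | a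
    · rcases b with _ | b
      · exact h0
      · rw [← fn_dz]; exact h2 _ _ (by omega)
    · rw [← fn_dv]; exact h1 _ _ (by omega)

theorem van_mul (t : R) (P : Fin 3 → R) (n : ℕ) : ∀ (k l : ℕ) (F G : P3 R), k + l = n →
    Van t P k F → Van t P l G → Van t P n (F * G) := by
  induction n with
  | zero => intro k l F G _ _ _ a b hab; omega
  | succ n ih =>
    intro k l F G hkl hF hG
    have hE : ∀ (D : Derivation R (P3 R) (P3 R)),
        (∀ (m : ℕ) (H : P3 R), Van t P (m + 1) H → Van t P m (D H)) → Van t P n (D (F * G)) := by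
      intro D hD
      rw [Derivation.leibniz, smul_eq_mul, smul_eq_mul]
      refine Van.add ?_ ?_
      · rcases l with _ | l
        · exact ih n 0 F (D G) (by omega) (Van.mono hF (by omega)) (fun a b hab => by omega)
        · exact ih k l F (D G) (by omega) hF (hD l G hG)
      · rcases k with _ | k
        · exact ih n 0 G (D F) (by omega) (Van.mono hG (by omega)) (fun a b hab => by omega)
        · exact ih l k G (D F) (by omega) hG (hD k F hF)
    rw [van_succ]
    refine ⟨?_, hE (Dv t) fun m H h => ((van_succ t P m H).1 h).2.1,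
      hE Dz fun m H h => ((van_succ t P m H).1 h).2.2⟩
    rw [map_mul]
    rcases k with _ | k
    · rcases l with _ | l
      · omega
      · rw [((van_succ t P l G).1 hG).1, mul_zero]
    · rw [((van_succ t P k F).1 hF).1, zero_mul]

theorem dv_hC (t : R) : Dv t (hC t) = 0 := by
  have h1 : Dv t (X 1 : P3 R) = (X 0 ^ 2 - C t) + (1 + X 0) * (2 * X 0) := by
    simp [Dv, mkDerivation_X]
  have h0 : Dv t (X 0 : P3 R) = 2 * X 1 := by
    simp [Dv, mkDerivation_X]
  have hc : Dv t (C t : P3 R) = 0 := by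
    simp [Dv]
  unfold hC
  rw [map_sub, Derivation.leibniz_pow, Derivation.leibniz, map_add, map_sub, Derivation.leibniz_pow,
    Derivation.map_one_eq_zero, h1, h0, hc]
  simp only [smul_eq_mul, nsmul_eq_mul]
  push_cast
  ring

theorem dz_hC (t : R) : Dz (hC t) = 0 := by
  have h1 : Dz (X 1 : P3 R) = 0 := by
    simp [Dz, mkDerivation_X]
  have h0 : Dz (X 0 : P3 R) = 0 := by
    simp [Dz, mkDerivation_X]
  have hc : Dz (C t : P3 R) = 0 := by
    simp [Dz]
  unfold hC
  rw [map_sub, Derivation.leibniz_pow, Derivation.leibniz, map_add, map_sub, Derivation.leibniz_pow,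
    Derivation.map_one_eq_zero, h1, h0, hc]
  simp only [smul_eq_mul, nsmul_eq_mul]
  push_cast
  ring

theorem eval_hC (t : R) (P : Fin 3 → R) (h : OnE t P) : eval P (hC t) = 0 := by
  unfold OnE at h
  simp [hC, h]

/-- multiples of the equation of the curve -/
theorem Van.mul_hC {t : R} {P : Fin 3 → R} (h : OnE t P) (k : ℕ) :
    ∀ Q : P3 R, Van t P k (hC t * Q) := by
  induction k with
  | zero => intro Q a b hab; omega
  | succ k ih =>
    intro Q
    rw [van_succ]
    refine ⟨by rw [map_mul, eval_hC t P h, zero_mul], ?_, ?_⟩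
    · rw [Derivation.leibniz, dv_hC, smul_zero, add_zero, smul_eq_mul]
      exact ih _
    · rw [Derivation.leibniz, dz_hC, smul_zero, add_zero, smul_eq_mul]
      exact ih _

theorem van_one_of_mem (t : R) (P : Fin 3 → R) (G : P3 R) (h : G ∈ mI P) : Van t P 1 G := by
  intro a b hab
  have ha : a = 0 := by omega
  have hb : b = 0 := by omega
  subst ha hb
  have hle : mI P ≤ RingHom.ker (eval P) := by
    unfold mI
    rw [Ideal.span_le]
    rintro x hx
    simp only [Set.mem_insert_iff, Set.mem_singleton_iff] at hx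
    rcases hx with rfl | rfl | rfl <;> simp [RingHom.mem_ker]
  exact hle h

theorem van_of_mem_pow (t : R) (P : Fin 3 → R) (k : ℕ) :
    ∀ G : P3 R, G ∈ mI P ^ k → Van t P k G := by
  induction k with
  | zero => intro G _ a b hab; omega
  | succ k ih =>
    intro G hG
    rw [pow_succ] at hG
    refine Submodule.mul_induction_on hG ?_ ?_
    · intro m hm n hn
      exact van_mul t P (k + 1) k 1 m n rfl (ih m hm) (van_one_of_mem t P n hn)
    · intro x y hx hy
      exact Van.add hx hy

end

theorem t_VAN2 : S_VAN2 := fun _ _ t P k l F G hF hG => van_mul t P (k + l) k l F G rfl hF hG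

theorem t_VAN1 : S_VAN1 := by
  intro R _ t P hP k G hG
  unfold JJ at hG
  obtain ⟨y, hy, z, hz, rfl⟩ := Submodule.mem_sup.1 hG
  obtain ⟨Q, rfl⟩ := Ideal.mem_span_singleton'.1 hz
  refine Van.add (van_of_mem_pow t P k y hy) ?_
  rw [mul_comm]
  exact Van.mul_hC hP k Q

end Pool.Agent.K1H38.ES
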